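import Pool.Agent.J6H58.TT.Dense
import Pool.Agent.J6H58.TT.Main

/-!
# The weak thin tree conjecture for dense graphs and for graphs of bounded independence number

The question is whether for some `k` all `k`-edge-connected multigraphs `G` have a spanning tree `T`
with `2 |T ∩ δ(A)| ≤ |δ(A)|` for all cuts `δ(A)`. Here the answer is shown to be yes, for every thinness
`1 / N` in the place of `1 / 2`, for the multigraphs on `n` vertices in which all independent sets of
vertices with less than `n / d` neighbours have at most `a` elements; `k` depends only on `N`, `a`
and `d`. Two cases:

* (`d = 0`) the multigraphs with independence number at most `a`; here `k` can be taken to be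
  `4 N (4 N - 1) (2 ^ (a + 1) - a - 2)`, so `56 (2 ^ (a + 1) - a - 2)` for `N = 2`
  (`explicit_of_independence_number`);
* (`a = 0`) the multigraphs in which all vertices have at least `n / d` different neighbours
  (`of_min_degree`).

Proof. Call two vertices of `C` close in `C` (for a number `t`) if they are adjacent or have at least `t`
common neighbours in `C`. By the inequality of Bonferroni there are `a'` and `q` such that any `a' + 1`
vertices of `G` contain two which are close in `V` for `t = n / q` (`main_low`). Let `c = 2 N Δ`, where
`Δ` is a large constant, as the other constants below. Call `C` expanding if at least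
`c min (|B|, |C \ B|)` edges inside of `C` leave `B`, for all `B ⊆ C` such that `B` and `C \ B` are larger
than a constant.

(1) (`forest`) If any `b + 1` vertices of `C` contain two close ones then `C` has a spanning forest `F` with
degrees at most `Δ` and at most `b` components: in a forest of this kind with the smallest number of
components, every component has a vertex of degree less than `Δ`; two of these vertices are
close, so they could be joined directly or over a common neighbour of degree less than `Δ`. If `C`
is expanding then `|F ∩ δ(A)| ≤ Δ min (|A ∩ C|, |C \ A|)` is at most `|δ(A) ∩ E(C)| / (2 N)` plus a constant.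

(2) If `C` is not expanding, let `B ⊆ C` and `B' = C \ B` be large and connected by less than
`c min (|B|, |B'|)` edges. Only a bounded number of vertices have many neighbours on the other side;
delete them. Then a vertex of `B` and a vertex of `B'` are close only if they are adjacent. So it is
possible to delete a bounded number of further vertices from `B` such that any `b` of the remaining vertices
contain two close ones: otherwise `B` contains `2 c` disjoint sets of `b` vertices which are pairwise not
close, every vertex of `B'` has a neighbour in each of them, and there are too many edges between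
`B` and `B'` (`separate2`). The same holds for `B'`. Pairs which are close in `C` are close in the rest of
`B` for `t / 2`.

(3) By induction (`rec_main`) the vertex set has a partition into a bounded number of expanding sets and of
single vertices, hence a spanning forest `F` with a bounded number of components such that
`2 N |F ∩ δ(A)| ≤ |δ(A)|` plus a constant, for all `A`. (4) A bounded number of edges makes it connected
(`Rep.connect`); if `k` is large, all the constants are at most `|δ(A)|`.
-/

set_option autoImplicit false

namespace Pool.Agent.Results.MP_e3de44_co.FewLowDegreeIndependent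

open Pool.Agent.J6H58.TT

/-- **Theorem.** For all `N ≥ 1`, `a` and `d` there is `k` such that every `k`-edge-connected
multigraph with `n` vertices in which the independent sets of vertices with less than `n / d`
neighbours have at most `a` elements has a `1 / N`-thin spanning tree. -/
theorem result (N a d : ℕ) (hN : 1 ≤ N) : ∃ k : ℕ, ∀ (V E : Type) [Fintype V] [DecidableEq V]
    [Nonempty V] [Fintype E] [DecidableEq E] (G : MGraph V E),
    (∀ I : Finset V, G.Indep I → (∀ v ∈ I, d * (G.nbrs v).card < Fintype.card V) → I.card ≤ a) →
    G.EdgeConnected k →
    ∃ T : Finset E, G.IsSpanningTree T ∧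
      ∀ A : Finset V, N * (T ∩ G.cut A).card ≤ (G.cut A).card :=
  MGraph.main_low N a d hN

/-- The case `a = 0`: all vertices have at least `n / d` neighbours. -/
theorem of_min_degree (N d : ℕ) (hN : 1 ≤ N) : ∃ k : ℕ, ∀ (V E : Type) [Fintype V] [DecidableEq V]
    [Nonempty V] [Fintype E] [DecidableEq E] (G : MGraph V E),
    (∀ v, Fintype.card V ≤ d * (G.nbrs v).card) → G.EdgeConnected k →
    ∃ T : Finset E, G.IsSpanningTree T ∧
      ∀ A : Finset V, N * (T ∩ G.cut A).card ≤ (G.cut A).card := by
  obtain ⟨k, hk⟩ := result N 0 d hN
  refine ⟨k, ?_⟩
  intro V E _ _ _ _ _ G hd hconn
  refine hk V E G ?_ hconn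
  intro I _ hI
  rw [Nat.le_zero, Finset.card_eq_zero, Finset.eq_empty_iff_forall_notMem]
  intro v hv
  exact absurd (hI v hv) (not_lt.2 (hd v))

/-- The case `d = 0` (all independent sets have at most `a` elements), with an explicit bound. -/
theorem explicit_of_independence_number (N a : ℕ) (hN : 1 ≤ N) (V E : Type) [Fintype V]
    [DecidableEq V] [Nonempty V] [Fintype E] [DecidableEq E] (G : MGraph V E)
    (hind : ∀ I : Finset V, G.Indep I → I.card ≤ a)
    (hk : G.EdgeConnected (4 * N * (4 * N - 1) * (2 ^ (a + 1) - (a + 2)))) :
    ∃ T : Finset E, G.IsSpanningTree T ∧
      ∀ A : Finset V, N * (T ∩ G.cut A).card ≤ (G.cut A).card := by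
  refine MGraph.main N a hN hind ?_
  have h : 2 * N * MGraph.gg (4 * N) a = 4 * N * (4 * N - 1) * (2 ^ (a + 1) - (a + 2)) := by
    have h1 := MGraph.gg_eq (4 * N) a
    have h2 : MGraph.gg (4 * N) a = 2 * (4 * N - 1) * (2 ^ (a + 1) - (a + 2)) := by
      rw [Nat.mul_sub]
      omega
    rw [h2]
    ring
  rw [h]
  exact hk

end Pool.Agent.Results.MP_e3de44_co.FewLowDegreeIndependent
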